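import Pool.Agent.N181.T3.Irr
import Pool.Agent.X243.Gen.Three

/-!
Cycles of length five of the roots: they survive the extensions by roots of polynomials of degree at
most four.
-/

set_option autoImplicit false
set_option linter.all false

open Polynomial
open scoped Classical

namespace Pool.Agent.N181.TA

open Pool.Agent.X243.Gen Pool.Agent.X243.Sol Pool.Agent.X243.Tate

section five

variable {L L' : Type} [Field L] [Field L'] [Algebra L L']

/-- Each five elements of `Z` are permuted cyclically by an automorphism over `M`. -/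
def Five (M : IntermediateField L L') (Z : Set L') : Prop :=
  ∀ c : Fin 5 → L', (∀ i, c i ∈ Z) → Function.Injective c →
    ∃ g : L' ≃ₐ[L] L', (∀ x ∈ M, g x = x) ∧ ∀ i, g (c i) = c (i + 1)

theorem pow_fix {g : L' ≃ₐ[L] L'} {x : L'} (h : g x = x) (j : ℕ) : (g ^ j) x = x := by
  induction j with
  | zero => rfl
  | succ j ih =>
    rw [pow_succ, AlgEquiv.mul_apply, h, ih]

theorem pow_cyc {g : L' ≃ₐ[L] L'} {c : Fin 5 → L'} (h : ∀ i, g (c i) = c (i + 1)) (j : ℕ) :
    ∀ i, (g ^ j) (c i) = c (i + j • (1 : Fin 5)) := by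
  induction j with
  | zero =>
    intro i
    rw [pow_zero, AlgEquiv.one_apply, zero_nsmul, add_zero]
  | succ j ih =>
    intro i
    rw [pow_succ, AlgEquiv.mul_apply, h, ih, succ_nsmul, add_assoc, add_comm 1 (j • (1 : Fin 5))]

/-- Some power fixes a given root of a polynomial of degree at most four. -/
theorem exists_fix {M : IntermediateField L L'} {g : L' ≃ₐ[L] L'} (hg : ∀ x ∈ M, g x = x)
    {x : L'} {G : M[X]} (hG : G ≠ 0) (hd : G.natDegree ≤ 4) (hx : aeval x G = 0) :
    ∃ j : ℕ, 0 < j ∧ j < 5 ∧ (g ^ j) x = x := by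
  have hG' : G.map (algebraMap M L') ≠ 0 :=
    (Polynomial.map_ne_zero_iff (algebraMap M L').injective).2 hG
  have hroot : ∀ j : ℕ, (g ^ j) x ∈ (G.map (algebraMap M L')).roots.toFinset := by
    intro j
    rw [Multiset.mem_toFinset, mem_roots hG', IsRoot.def, eval_map_algebraMap]
    have hgj : ∀ y ∈ M, (g ^ j) y = y := fun y hy => pow_fix (hg y hy) j
    have e : aeval ((g ^ j) x) G = (g ^ j) (aeval x G) := by
      rw [aeval_eq_sum_range, aeval_eq_sum_range, map_sum]
      refine Finset.sum_congr rfl fun i _ => ?_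
      rw [Algebra.smul_def, Algebra.smul_def, map_mul, map_pow]
      congr 1
      exact (hgj _ (G.coeff i).2).symm
    rw [e, hx, map_zero]
  have hcard : (G.map (algebraMap M L')).roots.toFinset.card < (Finset.range 5).card := by
    rw [Finset.card_range]
    have h1 := Multiset.toFinset_card_le (G.map (algebraMap M L')).roots
    have h2 := card_roots' (G.map (algebraMap M L'))
    rw [natDegree_map] at h2
    omega
  obtain ⟨i, hi, j, hj, hij, he⟩ := Finset.exists_ne_map_eq_of_card_lt_of_maps_to hcard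
    (f := fun j => (g ^ j) x) (fun j _ => hroot j)
  rw [Finset.mem_range] at hi hj
  have key : ∀ i j : ℕ, i < j → j < 5 → (g ^ i) x = (g ^ j) x →
      ∃ j : ℕ, 0 < j ∧ j < 5 ∧ (g ^ j) x = x := by
    intro i j h1 h2 h3
    refine ⟨j - i, by omega, by omega, ?_⟩
    have h4 : g ^ j = g ^ i * g ^ (j - i) := by rw [← pow_add]; congr 1; omega
    rw [h4, AlgEquiv.mul_apply] at h3
    exact ((g ^ i).injective h3).symm
  rcases Nat.lt_or_gt_of_ne hij with h | h
  · exact key i j h hj he
  · exact key j i h hi he.symm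

theorem exists_inv {j : ℕ} (h0 : 0 < j) (h5 : j < 5) : ∃ e : ℕ, (j * e) • (1 : Fin 5) = 1 := by
  obtain h | h | h | h : j = 1 ∨ j = 2 ∨ j = 3 ∨ j = 4 := by omega
  · exact ⟨1, by rw [h]; rfl⟩
  · exact ⟨3, by rw [h]; rfl⟩
  · exact ⟨2, by rw [h]; rfl⟩
  · exact ⟨4, by rw [h]; rfl⟩

/-- The step. -/
theorem Five.step {M : IntermediateField L L'} {Z : Set L'} (h : Five M Z) {x : L'} {G : M[X]}
    (hG : G ≠ 0) (hd : G.natDegree ≤ 4) (hx : aeval x G = 0) :
    Five ((IntermediateField.adjoin M {x}).restrictScalars L) Z := by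
  intro c hc hi
  obtain ⟨g, hg, hgc⟩ := h c hc hi
  obtain ⟨j, hj0, hj5, hj⟩ := exists_fix hg hG hd hx
  obtain ⟨e, he⟩ := exists_inv hj0 hj5
  refine ⟨g ^ (j * e), ?_, ?_⟩
  · intro y hy
    rw [IntermediateField.mem_restrictScalars] at hy
    have hgM : ∀ y ∈ M, (g ^ (j * e)) y = y := fun y hy => pow_fix (hg y hy) _
    have hgx : (g ^ (j * e)) x = x := by
      rw [pow_mul]
      exact pow_fix hj e
    let g' : L' →ₐ[M] L' := ⟨((g ^ (j * e) : L' ≃ₐ[L] L') : L' →+* L'), fun r => hgM _ r.2⟩
    have h1 : ∀ z ∈ IntermediateField.adjoin M {x}, g' z = z := by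
      intro z hz
      refine IntermediateField.adjoin_induction M (p := fun z _ => g' z = z) ?_ ?_ ?_ ?_ ?_ hz
      · intro y hy
        rw [Set.mem_singleton_iff.1 hy]
        exact hgx
      · intro r
        exact g'.commutes r
      · intro a b _ _ ha hb
        rw [map_add, ha, hb]
      · intro a _ ha
        rw [map_inv₀, ha]
      · intro a b _ _ ha hb
        rw [map_mul, ha, hb]
    exact h1 y hy
  · intro i
    rw [pow_cyc hgc (j * e) i, he]

/-- Cycles of length three. -/
theorem Five.three {M : IntermediateField L L'} {Z : Set L'} (h : Five M Z) (hZ : 5 ≤ Z.ncard) :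
    Three M Z := by
  intro x hx y hy hxy
  have hfin : Z.Finite := Set.finite_of_ncard_ne_zero (by omega)
  obtain ⟨S, hS, hS3⟩ : ∃ S : Finset L', (↑S ⊆ Z \ {x, y}) ∧ S.card = 3 := by
    have h1 : 3 ≤ (Z \ {x, y}).ncard := by
      have h2 := Set.ncard_diff_add_ncard_of_subset (s := {x, y}) (t := Z) (by
        intro z hz
        rcases hz with rfl | hz
        · exact hx
        · rw [Set.mem_singleton_iff.1 hz]; exact hy) hfin
      rw [Set.ncard_pair hxy] at h2
      omega
    obtain ⟨T, hT, hT3⟩ := Set.exists_subset_card_eq h1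
    have hTf : T.Finite := hfin.subset (hT.trans Set.diff_subset)
    refine ⟨hTf.toFinset, by rw [hTf.coe_toFinset]; exact hT, ?_⟩
    rw [← Set.ncard_eq_toFinset_card T hTf, hT3]
  obtain ⟨z, u, v, hzu, hzv, huv, e⟩ := Finset.card_eq_three.1 hS3
  have hmem : ∀ w ∈ S, w ∈ Z ∧ w ≠ x ∧ w ≠ y := by
    intro w hw
    obtain ⟨h1, h2⟩ := hS hw
    simp only [Set.mem_insert_iff, Set.mem_singleton_iff, not_or] at h2
    exact ⟨h1, h2.1, h2.2⟩
  obtain ⟨z1, z2, z3⟩ := hmem z (by rw [e]; simp)
  obtain ⟨u1, u2, u3⟩ := hmem u (by rw [e]; simp)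
  obtain ⟨v1, v2, v3⟩ := hmem v (by rw [e]; simp)
  obtain ⟨σ, hσ, hσc⟩ := h ![x, z, y, u, v] (by
    intro i
    fin_cases i
    · exact hx
    · exact z1
    · exact hy
    · exact u1
    · exact v1) (by
      rw [← List.nodup_ofFn]
      simp [List.ofFn_succ, hxy, z2.symm, u2.symm, v2.symm, z3, hzu, hzv, u3.symm, v3.symm, huv])
  obtain ⟨τ, hτ, hτc⟩ := h ![x, z, v, u, y] (by
    intro i
    fin_cases i
    · exact hx
    · exact z1
    · exact v1
    · exact u1
    · exact hy) (by
      rw [← List.nodup_ofFn]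
      simp [List.ofFn_succ, hxy, z2.symm, u2.symm, v2.symm, z3, hzu, hzv, u3, v3, huv.symm])
  have s0 : σ x = z := hσc 0
  have s1 : σ z = y := hσc 1
  have s4 : σ v = x := hσc 4
  have t0 : τ x = z := hτc 0
  have t1 : τ z = v := hτc 1
  have t4 : τ y = x := hτc 4
  have hgM : ∀ w ∈ M, (σ * τ) w = w := by
    intro w hw
    rw [AlgEquiv.mul_apply, hτ w hw, hσ w hw]
  obtain ⟨g, hgg⟩ : ∃ g : L' ≃ₐ[M] L', ∀ x, g x = (σ * τ) x :=
    ⟨AlgEquiv.ofRingEquiv (f := (σ * τ).toRingEquiv) (fun r => hgM _ r.2), fun x => rfl⟩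
  refine ⟨g, z, ?_, ?_, ?_⟩
  · rw [hgg, AlgEquiv.mul_apply, t0, s1]
  · rw [hgg, AlgEquiv.mul_apply, t4, s0]
  · rw [hgg, AlgEquiv.mul_apply, t1, s4]

end five

section base

variable {k : Type} [Field k]

/-- The base. -/
theorem five_bot {F : k[X]} (hF : F.Separable) (h5 : 5 ≤ F.natDegree) (hfull : FullG F)
    (L L' : Type) [Field L] [Field L'] [Algebra k L] [Algebra L L'] [Algebra k L']
    [IsScalarTower k L L'] [IsSepClosure L L'] (M : IntermediateField k L') [Normal k M]
    (hM : ∀ x : L, IsSeparable k x → algebraMap L L' x ∈ M)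
    (hns : ¬ (F.map (algebraMap k M)).Splits) :
    Five (⊥ : IntermediateField L L') (F.rootSet L') := by
  haveI : IsSepClosed L' := IsSepClosure.sep_closed L
  haveI : IsGalois L L' := IsSepClosure.isGalois
  have hsp := SplittingField.splits F
  haveI : FiniteDimensional k F.SplittingField := inferInstance
  haveI : IsGalois k F.SplittingField := IsGalois.of_separable_splitting_field hF
  obtain ⟨i, -⟩ : ∃ i : F.SplittingField →ₐ[k] L', i = i := ⟨IsSepClosed.lift, rfl⟩
  letI : Algebra F.SplittingField L' := i.toRingHom.toAlgebra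
  haveI : IsScalarTower k F.SplittingField L' :=
    IsScalarTower.of_algebraMap_eq fun x => (i.commutes x).symm
  have hsurj := hfull F.SplittingField hsp
  have hcard : Nat.card (F.rootSet F.SplittingField) = F.natDegree := by
    rw [Nat.card_eq_fintype_card, card_rootSet_eq_natDegree hF hsp]
  have hZ : F.rootSet L' = (algebraMap F.SplittingField L') '' F.rootSet F.SplittingField :=
    (hsp.image_rootSet_algebraMap).symm
  intro c hc hinj
  have hc' : ∀ i, ∃ d : F.rootSet F.SplittingField, algebraMap F.SplittingField L' d = c i := by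
    intro i
    have := hc i
    rw [hZ] at this
    obtain ⟨x, hx, h⟩ := this
    exact ⟨⟨x, hx⟩, h⟩
  choose d hd using hc'
  have hdi : ∀ i j, i ≠ j → d i ≠ d j := by
    intro i j hij h
    apply hij
    apply hinj
    rw [← hd, ← hd, h]
  have n01 := hdi 0 1 (by decide)
  have n02 := hdi 0 2 (by decide)
  have n03 := hdi 0 3 (by decide)
  have n04 := hdi 0 4 (by decide)
  have n12 := hdi 1 2 (by decide)
  have n13 := hdi 1 3 (by decide)
  have n14 := hdi 1 4 (by decide)
  have n23 := hdi 2 3 (by decide)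
  have n24 := hdi 2 4 (by decide)
  have n34 := hdi 3 4 (by decide)
  obtain ⟨σ, hσ, hcσ⟩ := even_fix (F := F) (E := F.SplittingField) (L' := L') hsp hsurj
      (by rw [hcard]; exact h5) M hns
      ((Equiv.swap (d 0) (d 1) * Equiv.swap (d 1) (d 2)) *
        (Equiv.swap (d 2) (d 3) * Equiv.swap (d 3) (d 4)))
      (mul_mem (Equiv.Perm.mul_mem_alternatingGroup_of_isSwap ⟨d 0, d 1, n01, rfl⟩
        ⟨d 1, d 2, n12, rfl⟩) (Equiv.Perm.mul_mem_alternatingGroup_of_isSwap
          ⟨d 2, d 3, n23, rfl⟩ ⟨d 3, d 4, n34, rfl⟩))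
  obtain ⟨g, hg'⟩ := lift_fix' (L := L) (L' := L') M hM hσ
  have hg : ∀ t : F.rootSet F.SplittingField, g (algebraMap F.SplittingField L' t) =
      algebraMap F.SplittingField L'
        (((Equiv.swap (d 0) (d 1) * Equiv.swap (d 1) (d 2)) *
        (Equiv.swap (d 2) (d 3) * Equiv.swap (d 3) (d 4))) t : F.rootSet F.SplittingField) := by
    intro t
    rw [hg', ← hcσ]
    rfl
  refine ⟨g, ?_, ?_⟩
  · intro x hx
    obtain ⟨y, rfl⟩ := IntermediateField.mem_bot.1 hx
    exact g.commutes y
  · obtain ⟨π, hπ⟩ : ∃ π : Equiv.Perm (F.rootSet F.SplittingField), π =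
        (Equiv.swap (d 0) (d 1) * Equiv.swap (d 1) (d 2)) *
          (Equiv.swap (d 2) (d 3) * Equiv.swap (d 3) (d 4)) := ⟨_, rfl⟩
    rw [← hπ] at hg
    have e0 : π (d 0) = d 1 := by
      rw [hπ]
      simp only [Equiv.Perm.mul_apply]
      rw [Equiv.swap_apply_of_ne_of_ne (a := d 3) (b := d 4) (x := d 0) n03 n04,
        Equiv.swap_apply_of_ne_of_ne (a := d 2) (b := d 3) (x := d 0) n02 n03,
        Equiv.swap_apply_of_ne_of_ne (a := d 1) (b := d 2) (x := d 0) n01 n02,
        Equiv.swap_apply_left]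
    have e1 : π (d 1) = d 2 := by
      rw [hπ]
      simp only [Equiv.Perm.mul_apply]
      rw [Equiv.swap_apply_of_ne_of_ne (a := d 3) (b := d 4) (x := d 1) n13 n14,
        Equiv.swap_apply_of_ne_of_ne (a := d 2) (b := d 3) (x := d 1) n12 n13,
        Equiv.swap_apply_left,
        Equiv.swap_apply_of_ne_of_ne (a := d 0) (b := d 1) (x := d 2) n02.symm n12.symm]
    have e2 : π (d 2) = d 3 := by
      rw [hπ]
      simp only [Equiv.Perm.mul_apply]
      rw [Equiv.swap_apply_of_ne_of_ne (a := d 3) (b := d 4) (x := d 2) n23 n24,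
        Equiv.swap_apply_left,
        Equiv.swap_apply_of_ne_of_ne (a := d 1) (b := d 2) (x := d 3) n13.symm n23.symm,
        Equiv.swap_apply_of_ne_of_ne (a := d 0) (b := d 1) (x := d 3) n03.symm n13.symm]
    have e3 : π (d 3) = d 4 := by
      rw [hπ]
      simp only [Equiv.Perm.mul_apply]
      rw [Equiv.swap_apply_left,
        Equiv.swap_apply_of_ne_of_ne (a := d 2) (b := d 3) (x := d 4) n24.symm n34.symm,
        Equiv.swap_apply_of_ne_of_ne (a := d 1) (b := d 2) (x := d 4) n14.symm n24.symm,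
        Equiv.swap_apply_of_ne_of_ne (a := d 0) (b := d 1) (x := d 4) n04.symm n14.symm]
    have e4 : π (d 4) = d 0 := by
      rw [hπ]
      simp only [Equiv.Perm.mul_apply]
      rw [Equiv.swap_apply_right, Equiv.swap_apply_right, Equiv.swap_apply_right,
        Equiv.swap_apply_right]
    have key : ∀ i, π (d i) = d (i + 1) := by
      intro i
      fin_cases i
      exacts [e0, e1, e2, e3, e4]
    intro i
    rw [← hd i, hg, ← hd (i + 1), key]

end base

section irr

variable {k : Type} [Field k]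

/-- The polynomial stays irreducible. -/
theorem five_irr {F : k[X]} (hF : F.Separable) (h5 : 5 ≤ F.natDegree)
    (L L' : Type) [Field L] [Field L'] [Algebra k L] [Algebra L L'] [Algebra k L']
    [IsScalarTower k L L'] [IsSepClosed L'] {M : IntermediateField L L'}
    (h : Five M (F.rootSet L')) :
    Irreducible ((F.map (algebraMap k L)).map (algebraMap L M)) := by
  have hsep : ((F.map (algebraMap k L)).map (algebraMap L M)).Separable := hF.map.map
  have hspl : (((F.map (algebraMap k L)).map (algebraMap L M)).map (algebraMap M L')).Splits :=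
    IsSepClosed.splits_of_separable _ hsep.map
  have hFs : (F.map (algebraMap k L')).Splits := IsSepClosed.splits_of_separable _ hF.map
  have hZ : ((F.map (algebraMap k L)).map (algebraMap L M)).rootSet L' = F.rootSet L' := by
    ext x
    rw [mem_rootSet, mem_rootSet]
    have e : aeval x ((F.map (algebraMap k L)).map (algebraMap L M)) = aeval x F := by
      rw [aeval_map_algebraMap, aeval_map_algebraMap]
    rw [e]
    exact ⟨fun h => ⟨hF.ne_zero, h.2⟩, fun h => ⟨hsep.ne_zero, h.2⟩⟩
  have hn : (F.rootSet L').ncard = F.natDegree := by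
    rw [← Nat.card_coe_set_eq, Nat.card_eq_fintype_card, card_rootSet_eq_natDegree hF hFs]
  refine irr_of_three hsep hspl (by rw [natDegree_map, natDegree_map]; omega) ?_
  rw [hZ]
  exact h.three (by rw [hn]; exact h5)

end irr

end Pool.Agent.N181.TA
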