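import Pool.Agent.N181.P9.Over
import Pool.Agent.N181.TA.Five

/-!
Complete first descents over an extension of the constants which is a tower of extensions generated by
roots of polynomials of degree at most four.
-/

set_option autoImplicit false
set_option linter.all false

open Polynomial IsDedekindDomain WeierstrassCurve WeierstrassCurve.Affine
open scoped Classical

namespace Pool.Agent.N181.TA

open Pool.Agent.N181.P9
open Pool.Agent.N181.P8 (sep_map)
open Pool.Agent.TH115.GD

section stable

variable {L L' : Type} [Field L] [Field L'] [Algebra L L']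

/-- A class of intermediate fields which is stable under adjoining roots of polynomials of degree at most
four. -/
structure Stable (St : IntermediateField L L' → Prop) : Prop where
  fin : ∀ M, St M → FiniteDimensional L M
  step : ∀ M, St M → ∀ (x : L') (G : M[X]), G ≠ 0 → G.natDegree ≤ 4 → aeval x G = 0 →
    ∃ M' : IntermediateField L L', M ≤ M' ∧ St M' ∧ x ∈ M'

theorem Stable.step4 {St : IntermediateField L L' → Prop} (hSt : Stable St)
    {M : IntermediateField L L'} (hM : St M)
    {x : L'} {G : M[X]} (hG : G ≠ 0) (hG3 : G.natDegree ≤ 4) (hx : aeval x G = 0) :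
    ∃ M' : IntermediateField L L', M ≤ M' ∧ St M' ∧ x ∈ M' := hSt.step M hM x G hG hG3 hx

set_option synthInstance.maxHeartbeats 400000 in
/-- The class of the fields over which each five elements of the sets are permuted cyclically. -/
theorem stable_five (S : Set (Set L')) :
    Stable (fun M : IntermediateField L L' => FiniteDimensional L M ∧ ∀ Z ∈ S, Five M Z) where
  fin := fun M h => h.1
  step := by
    rintro M ⟨hM, h5⟩ x G hG hG4 hx
    have hint : IsIntegral M x := IsAlgebraic.isIntegral ⟨G, hG, hx⟩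
    let E : IntermediateField M L' := IntermediateField.adjoin M {x}
    have hE : FiniteDimensional M E := IntermediateField.adjoin.finiteDimensional hint
    refine ⟨E.restrictScalars L, ?_, ⟨?_, ?_⟩, ?_⟩
    · intro y hy
      rw [IntermediateField.mem_restrictScalars]
      exact E.algebraMap_mem ⟨y, hy⟩
    · exact (Module.Finite.trans M E : Module.Finite L E)
    · intro Z hZ
      exact (h5 Z hZ).step hG hG4 hx
    · rw [IntermediateField.mem_restrictScalars]
      exact IntermediateField.mem_adjoin_simple_self M x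

theorem st_set4 {St : IntermediateField L L' → Prop} (hSt : Stable St) (S : Finset L')
    (hS : ∀ x ∈ S, ∃ G : L[X], G ≠ 0 ∧ G.natDegree ≤ 4 ∧ aeval x G = 0) :
    ∀ M : IntermediateField L L', St M →
      ∃ M' : IntermediateField L L', M ≤ M' ∧ St M' ∧ ∀ x ∈ S, x ∈ M' := by
  induction S using Finset.induction with
  | empty => exact fun M hM => ⟨M, le_rfl, hM, fun x hx => absurd hx (Finset.notMem_empty x)⟩
  | insert y S hy ih =>
    intro M hM
    obtain ⟨M1, h1, h2, h3⟩ := ih (fun x hx => hS x (Finset.mem_insert_of_mem hx)) M hM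
    obtain ⟨G, hG, hG3, hGx⟩ := hS y (Finset.mem_insert_self y S)
    obtain ⟨M2, h4, h5, h6⟩ := hSt.step4 h2 (x := y) (G := G.map (algebraMap L M1))
      ((Polynomial.map_ne_zero_iff (algebraMap L M1).injective).2 hG)
      (by rw [natDegree_map]; exact hG3) (by rw [aeval_map_algebraMap]; exact hGx)
    refine ⟨M2, h1.trans h4, h5, fun x hx => ?_⟩
    rcases Finset.mem_insert.1 hx with rfl | hx
    · exact h6
    · exact h4 (h3 x hx)

/-- Square roots. -/
theorem st_sqrt {St : IntermediateField L L' → Prop} (hSt : Stable St) [IsSepClosed L'] (h2 : (2 : L') ≠ 0)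
    {M : IntermediateField L L'} (hM : St M) (d : M) :
    ∃ (M' : IntermediateField L L') (h : M ≤ M'), St M' ∧
      ∃ δ : M', δ ^ 2 = IntermediateField.inclusion h d := by
  haveI : NeZero ((2 : ℕ) : L') := ⟨by exact_mod_cast h2⟩
  obtain ⟨x, hx⟩ := IsSepClosed.exists_pow_nat_eq (d : L') 2
  obtain ⟨M', h, hM', hxM⟩ := hSt.step4 hM (x := x) (G := X ^ 2 - C d)
    (X_pow_sub_C_ne_zero two_pos d) (by rw [natDegree_X_pow_sub_C]; norm_num) (by
      rw [map_sub, map_pow, aeval_X, aeval_C, hx]
      exact sub_self _)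
  refine ⟨M', h, hM', ⟨x, hxM⟩, Subtype.ext ?_⟩
  exact hx

end stable

section reps

variable {L L' : Type} [Field L] [Field L'] [Algebra L L'] [IsSepClosed L']

/-- The point given by a decomposition, over a small extension. -/
theorem st_rep {St : IntermediateField L L' → Prop} (hSt : Stable St) {M : IntermediateField L L'} (hM : St M)
    (h2 : (2 : M) ≠ 0) {a b : M[X]} (da : a.natDegree ≤ 2) {p : M[X] × M[X]} (hp : Dec b p) :
    ∃ (M' : IntermediateField L L') (h : M ≤ M'), St M' ∧
      RepPoly (a.map (IntermediateField.inclusion h : M →+* M'))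
        (p.1.map (IntermediateField.inclusion h : M →+* M'),
          p.2.map (IntermediateField.inclusion h : M →+* M')) := by
  obtain ⟨-, du, dv, hu, hv⟩ := hp
  have h2' : (2 : L') ≠ 0 := two_map (algebraMap M L') h2
  have hG := quart_deg (a := a) (u := p.1) (v := p.2) hu
  obtain ⟨x, hx⟩ := quartic_root (N := L') h2 hG
  obtain ⟨M1, h01, hM1, hx1⟩ := hSt.step4 hM (x := x) (G := quart a p.1 p.2) (by
    intro h
    rw [h, natDegree_zero] at hG
    omega) hG.le hx
  let φ1 : M →+* M1 := (IntermediateField.inclusion h01 : M →ₐ[L] M1)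
  have hev : eval₂ φ1 (⟨x, hx1⟩ : M1) (quart a p.1 p.2) = 0 := by
    apply (algebraMap M1 L').injective
    rw [map_zero, hom_eval₂]
    exact hx
  set c : M1 := ⟨x, hx1⟩ with hc
  have hdisc := quart_eval φ1 hev
  have hc0 := quart_zero φ1 hev hv
  set Q : M1[X] := C (c ^ 2) * p.1.map φ1 + C c * a.map φ1 + p.2.map φ1 with hQ
  have hQd : Q.natDegree ≤ 2 := by
    refine (natDegree_add_le _ _).trans (max_le ((natDegree_add_le _ _).trans (max_le ?_ ?_)) ?_)
    · exact (natDegree_C_mul_le _ _).trans (by rw [natDegree_map]; exact du)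
    · exact (natDegree_C_mul_le _ _).trans (by rw [natDegree_map]; exact da)
    · rw [natDegree_map]; exact dv
  obtain ⟨M2, h12, hM2, δ, hδ⟩ := st_sqrt hSt h2' hM1 (c * Q.coeff 2)
  obtain ⟨M3, h23, hM3, ε, hε⟩ := st_sqrt hSt h2' hM2
    (IntermediateField.inclusion h12 (c * Q.coeff 0))
  let φ2 : M1 →+* M3 := (IntermediateField.inclusion (h12.trans h23) : M1 →ₐ[L] M3)
  have hφ : φ2.comp φ1 = (IntermediateField.inclusion (h01.trans (h12.trans h23)) : M →+* M3) := by
    apply RingHom.ext
    intro t
    rfl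
  have e23 : ∀ t : M1, IntermediateField.inclusion h23 (IntermediateField.inclusion h12 t) = φ2 t :=
    fun t => rfl
  refine ⟨M3, h01.trans (h12.trans h23), hM3, φ2 c, ?_⟩
  obtain ⟨w, hw⟩ := sq_of_disc (two_map φ2 (two_map φ1 h2)) (Q := Q.map φ2) (by
    rw [natDegree_map]; exact hQd) (by
      have h3 : disc2 (Q.map φ2) = φ2 (disc2 Q) := by
        unfold disc2
        rw [coeff_map, coeff_map, coeff_map, map_sub, map_pow, map_mul, map_mul, map_ofNat]
      rw [h3, hdisc, map_zero]) (c := φ2 c)
    (δ := IntermediateField.inclusion h23 δ) (ε := ε) (by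
      rw [← map_pow, hδ, coeff_map, ← map_mul φ2]
      rfl) (by
      rw [hε, coeff_map, ← map_mul φ2]
      rfl)
  refine ⟨w, (map_ne_zero_iff _ φ2.injective).2 hc0, ?_⟩
  rw [← hw, hQ]
  simp only [C_pow, Polynomial.map_mul, Polynomial.map_add, Polynomial.map_pow, map_C,
    Polynomial.map_map, hφ]

theorem st_reps {St : IntermediateField L L' → Prop} (hSt : Stable St) : ∀ (N : ℕ) (M : IntermediateField L L'),
    St M → (2 : M) ≠ 0 → ∀ {a b : M[X]}, a.natDegree ≤ 2 → ∀ S : List (M[X] × M[X]),
      S.length = N → (∀ p ∈ S, Dec b p) →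
    ∃ (M' : IntermediateField L L') (h : M ≤ M'), St M' ∧ ∀ p ∈ S,
      RepPoly (a.map (IntermediateField.inclusion h : M →+* M'))
        (p.1.map (IntermediateField.inclusion h : M →+* M'),
          p.2.map (IntermediateField.inclusion h : M →+* M')) := by
  intro N
  induction N with
  | zero =>
    intro M hM _ a b _ S hS _
    rw [List.length_eq_zero_iff] at hS
    subst hS
    exact ⟨M, le_rfl, hM, fun p hp => absurd hp List.not_mem_nil⟩
  | succ N ih =>
    intro M hM h2 a b da S hS hd
    obtain ⟨p, S', rfl⟩ : ∃ p S', S = p :: S' := by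
      cases S with
      | nil => simp at hS
      | cons p S' => exact ⟨p, S', rfl⟩
    obtain ⟨M1, h1, hM1, hr1⟩ := st_rep hSt hM h2 da (hd p List.mem_cons_self)
    let φ1 : M →+* M1 := (IntermediateField.inclusion h1 : M →ₐ[L] M1)
    obtain ⟨M2, h12, hM2, hr2⟩ := ih M1 hM1 (two_map φ1 h2) (a := a.map φ1) (b := b.map φ1)
      (by rw [natDegree_map]; exact da) (S'.map fun p => (p.1.map φ1, p.2.map φ1)) (by
        rw [List.length_map]
        simpa using hS) (by
        intro p' hp'
        rw [List.mem_map] at hp'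
        obtain ⟨p0, hp0, rfl⟩ := hp'
        obtain ⟨e1, e2, e3, e4, e5⟩ := hd p0 (List.mem_cons_of_mem _ hp0)
        have hdm : ∀ u : M[X], disc2 (u.map φ1) = φ1 (disc2 u) := by
          intro u
          unfold disc2
          rw [coeff_map, coeff_map, coeff_map, map_sub, map_pow, map_mul, map_mul, map_ofNat]
        refine ⟨?_, ?_, ?_, ?_, ?_⟩
        · show p0.1.map φ1 * p0.2.map φ1 = b.map φ1
          rw [← Polynomial.map_mul, e1]
        · show (p0.1.map φ1).natDegree ≤ 2
          rw [natDegree_map]; exact e2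
        · show (p0.2.map φ1).natDegree ≤ 2
          rw [natDegree_map]; exact e3
        · show disc2 (p0.1.map φ1) ≠ 0
          rw [hdm]; exact (map_ne_zero_iff _ φ1.injective).2 e4
        · show disc2 (p0.2.map φ1) ≠ 0
          rw [hdm]; exact (map_ne_zero_iff _ φ1.injective).2 e5)
    let φ2 : M1 →+* M2 := (IntermediateField.inclusion h12 : M1 →ₐ[L] M2)
    have hφ : φ2.comp φ1 = (IntermediateField.inclusion (h1.trans h12) : M →+* M2) := by
      apply RingHom.ext
      intro t
      rfl
    refine ⟨M2, h1.trans h12, hM2, fun p' hp' => ?_⟩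
    rw [List.mem_cons] at hp'
    rcases hp' with rfl | hp'
    · have := hr1.map φ2
      simp only [Polynomial.map_map] at this
      rw [hφ] at this
      exact this
    · have := hr2 _ (List.mem_map.2 ⟨p', hp', rfl⟩)
      simp only [Polynomial.map_map] at this
      have hφ' : (IntermediateField.inclusion h12 : M1 →+* M2).comp φ1 =
        (IntermediateField.inclusion (h1.trans h12) : M →+* M2) := hφ
      rw [hφ'] at this
      exact this

end reps

section setup

variable {L L' : Type} [Field L] [Field L'] [Algebra L L'] [IsSepClosure L L']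

/-- **The extension of the constants.** -/
theorem exists_stable2 {a b : L[X]} (hB : RatBase2 a b) {St : IntermediateField L L' → Prop} (hSt : Stable St)
    (hbot : St ⊥)
    (hsep : ∀ π : L[X], Irreducible π → π ∣ b * (a ^ 2 - 4 * b) → π.Separable) :
    ∃ M : IntermediateField L L', St M ∧
      ((b * (a ^ 2 - 4 * b)).map (algebraMap L M)).Splits ∧
      ∀ (K : Type) [Field K] [Algebra M[X] K] [IsFractionRing M[X] K],
        Base2 K 1 (a.map (algebraMap L M)) (b.map (algebraMap L M)) := by
  haveI : IsSepClosed L' := IsSepClosure.sep_closed L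
  have hb0 := hB.hb0
  have hd0 := hB.hd0
  have h0 : b * (a ^ 2 - 4 * b) ≠ 0 := mul_ne_zero hb0 hd0
  have hs := splits_of_sep (k' := L') h0 hsep
  -- the roots
  set S : Finset L' := ((b * (a ^ 2 - 4 * b)).rootSet_finite L').toFinset with hS
  obtain ⟨M1, -, hM1, hS1⟩ := st_set4 hSt S (by
    intro x hx
    rw [hS, Set.Finite.mem_toFinset, mem_rootSet] at hx
    have h1 := hx.2
    rw [map_mul] at h1
    rcases mul_eq_zero.1 h1 with h | h
    · exact ⟨b, hb0, hB.db, h⟩
    · exact ⟨_, hd0, hB.dd, h⟩) ⊥ hbot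
  have hsM1 : ((b * (a ^ 2 - 4 * b)).map (algebraMap L M1)).Splits :=
    IntermediateField.splits_of_splits hs fun x hx => hS1 x (by
      rw [hS, Set.Finite.mem_toFinset]
      exact hx)
  have hB1 := hB.map (algebraMap L M1)
  have inj1 := (algebraMap L M1).injective
  have h01 : (b * (a ^ 2 - 4 * b)).map (algebraMap L M1) ≠ 0 :=
    (Polynomial.map_ne_zero_iff inj1).2 h0
  have sb1 : (b.map (algebraMap L M1)).Splits :=
    hsM1.of_dvd h01 ((mapRingHom (algebraMap L M1)).map_dvd (dvd_mul_right _ _))
  have sd1 : ((a ^ 2 - 4 * b).map (algebraMap L M1)).Splits :=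
    hsM1.of_dvd h01 ((mapRingHom (algebraMap L M1)).map_dvd (dvd_mul_left _ _))
  obtain ⟨S1, hS1d, hS1C⟩ := exists_plan hB1.two hB1.db sb1 hB1.cb
  obtain ⟨S2, hS2d, hS2C⟩ := exists_plan hB1.two hB1.dd (by rw [map_disc2]; exact sd1) hB1.cd
  -- the points
  obtain ⟨M2, h12, hM2, hr1⟩ := st_reps hSt _ M1 hM1 hB1.two (b := b.map (algebraMap L M1))
    hB1.da S1 rfl hS1d
  let φ1 : M1 →+* M2 := (IntermediateField.inclusion h12 : M1 →ₐ[L] M2)
  have hdm : ∀ u : M1[X], disc2 (u.map φ1) = φ1 (disc2 u) := by
    intro u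
    unfold disc2
    rw [coeff_map, coeff_map, coeff_map, map_sub, map_pow, map_mul, map_mul, map_ofNat]
  obtain ⟨M, h23, hM, hr2⟩ := st_reps hSt _ M2 hM2 (two_map φ1 hB1.two)
    (a := -2 * (a.map (algebraMap L M1)).map φ1)
    (b := ((a.map (algebraMap L M1)) ^ 2 - 4 * b.map (algebraMap L M1)).map φ1)
    (two_a.trans (by rw [natDegree_map]; exact hB1.da))
    (S2.map fun p => (p.1.map φ1, p.2.map φ1)) rfl (by
      intro p' hp'
      rw [List.mem_map] at hp'
      obtain ⟨p0, hp0, rfl⟩ := hp'
      obtain ⟨e1, e2, e3, e4, e5⟩ := hS2d p0 hp0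
      refine ⟨?_, ?_, ?_, ?_, ?_⟩
      · show p0.1.map φ1 * p0.2.map φ1 = _
        rw [← Polynomial.map_mul, e1]
      · show (p0.1.map φ1).natDegree ≤ 2
        rw [natDegree_map]; exact e2
      · show (p0.2.map φ1).natDegree ≤ 2
        rw [natDegree_map]; exact e3
      · show disc2 (p0.1.map φ1) ≠ 0
        rw [hdm]; exact (map_ne_zero_iff _ φ1.injective).2 e4
      · show disc2 (p0.2.map φ1) ≠ 0
        rw [hdm]; exact (map_ne_zero_iff _ φ1.injective).2 e5)
  let φ2 : M2 →+* M := (IntermediateField.inclusion h23 : M2 →ₐ[L] M)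
  let φ : M1 →+* M := (IntermediateField.inclusion (h12.trans h23) : M1 →ₐ[L] M)
  have hφ12 : φ2.comp φ1 = φ := RingHom.ext fun t => rfl
  have hφ : φ.comp (algebraMap L M1) = algebraMap L M :=
    (IntermediateField.inclusion (h12.trans h23)).comp_algebraMap
  have hsM : ((b * (a ^ 2 - 4 * b)).map (algebraMap L M)).Splits := by
    rw [← hφ, ← Polynomial.map_map]
    exact hsM1.map φ
  have hBM := hB.map (algebraMap L M)
  have h0M : (b * (a ^ 2 - 4 * b)).map (algebraMap L M) ≠ 0 :=
    (Polynomial.map_ne_zero_iff (algebraMap L M).injective).2 h0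
  have sb : (b.map (algebraMap L M)).Splits :=
    hsM.of_dvd h0M ((mapRingHom (algebraMap L M)).map_dvd (dvd_mul_right _ _))
  have sd : ((a.map (algebraMap L M)) ^ 2 - 4 * b.map (algebraMap L M)).Splits := by
    rw [map_disc2]
    exact hsM.of_dvd h0M ((mapRingHom (algebraMap L M)).map_dvd (dvd_mul_left _ _))
  refine ⟨M, hM, hsM, ?_⟩
  intro K _ _ _
  have e1 : (a.map (algebraMap L M1)).map φ = a.map (algebraMap L M) := by
    rw [Polynomial.map_map, hφ]
  have e2 : (b.map (algebraMap L M1)).map φ = b.map (algebraMap L M) := by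
    rw [Polynomial.map_map, hφ]
  refine ⟨hBM.two, hBM.da, hBM.db, hBM.hb0, hBM.hd0, sb, sd, exists_mult2 sb hBM.cb,
    exists_mult2 sd hBM.cd, ?_, ?_⟩
  · have := hS1C M K φ (a.map (algebraMap L M)) (by rw [e2]; exact hBM.hd0) (by
      intro p hp
      have h3 := (hr1 p hp).map φ2
      simp only [Polynomial.map_map] at h3
      have h4 : φ2.comp (IntermediateField.inclusion h12 : M1 →+* M2) = φ := hφ12
      have h6 : φ2.comp ((IntermediateField.inclusion h12 : M1 →+* M2).comp (algebraMap L M1)) =
          algebraMap L M := by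
        rw [← RingHom.comp_assoc, h4, hφ]
      rw [h6, h4] at h3
      exact h3)
    rwa [e2] at this
  · have e3 : (((a.map (algebraMap L M1)) ^ 2 - 4 * b.map (algebraMap L M1))).map φ =
        (a.map (algebraMap L M)) ^ 2 - 4 * b.map (algebraMap L M) := by
      rw [← map_disc2, e1, e2]
    have hdual : (-2 * a.map (algebraMap L M)) ^ 2 -
        4 * ((a.map (algebraMap L M)) ^ 2 - 4 * b.map (algebraMap L M)) ≠ 0 := by
      rw [dual_disc2]
      have h16 : (16 : M) ≠ 0 := by
        have : (16 : M) = 2 ^ 4 := by norm_num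
        rw [this]
        exact pow_ne_zero 4 hBM.two
      exact mul_ne_zero (C_ne_zero.2 h16) hBM.hb0
    have := hS2C M K φ (-2 * a.map (algebraMap L M)) (by rw [e3]; exact hdual) (by
      intro p hp
      have h3 := hr2 _ (List.mem_map.2 ⟨p, hp, rfl⟩)
      have h4 : (IntermediateField.inclusion h23 : M2 →+* M).comp φ1 = φ := hφ12
      have h5 : (-2 * (a.map (algebraMap L M1)).map φ1).map
          (IntermediateField.inclusion h23 : M2 →+* M) = -2 * a.map (algebraMap L M) := by
        rw [Polynomial.map_mul, Polynomial.map_neg, Polynomial.map_ofNat, Polynomial.map_map, h4, e1]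
      rw [h5] at h3
      simp only [Polynomial.map_map] at h3
      rw [h4] at h3
      exact h3)
    rwa [e3] at this

end setup

end Pool.Agent.N181.TA
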