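import Pool.Agent.N181.P9.Main
import Pool.Agent.N181.TA.Small
import Pool.Agent.N181.P3.Ext

/-!
The Tate conjecture at 2 for the pullbacks of the rational elliptic surfaces with a section of order two
whose forms have full symmetric Galois groups, over all extensions with solvable constants.
-/

set_option autoImplicit false
set_option linter.all false

open Polynomial IsDedekindDomain WeierstrassCurve WeierstrassCurve.Affine
open scoped Classical

namespace Pool.Agent.N181.TA

open Pool.Agent.N181.P9
open Pool.Agent.N181.P3 (hb hb_map)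
open Pool.Agent.N181.P8 (sep_map exists_lift finite_mid TateQ tate_desc)
open Pool.Agent.X243.Gen (FF solvM solvM_normal mem_solvM solvM_not_splits)
open Pool.Agent.TH115.GD

section forms

variable {k : Type} [Field k]

/-- The forms of the places of bad reduction: the polynomials `q - ξ r` for the roots `ξ` of the
discriminant, and `r` if the place at infinity is bad and `r` is not `1`. -/
def Form2 (a b q r : k[X]) (f : k[X]) : Prop :=
  (∃ ξ, (b * (a ^ 2 - 4 * b)).IsRoot ξ ∧ f = q - C ξ * r) ∨
    (¬ (b.natDegree = 4 ∧ (a ^ 2 - 4 * b).natDegree = 4) ∧ r ≠ 1 ∧ f = r)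

theorem pwO_of {L : Type} [Field L] {f : L[X]} (h1 : Irreducible f) (h2 : f.Separable)
    (h3 : ¬ 2 ∣ f.natDegree) : PwO f :=
  ⟨f, 1, 1, one_ne_zero, by norm_num, h1, h2, by rwa [← Nat.not_even_iff_odd, even_iff_two_dvd],
    by rw [C_1, one_mul, pow_one]⟩

theorem fib_five {a b q r : k[X]} {n : ℕ} (hB : RatBase2 a b)
    (hs : (b * (a ^ 2 - 4 * b)).Splits) (h5 : 5 ≤ n) (h2 : ¬ 2 ∣ n) (hco : IsCoprime q r)
    (hq : q.natDegree = n) (hr : r.natDegree ≤ n) (hf : ∀ f, Form2 a b q r f → FF n f)
    {L L' : Type} [Field L] [Field L'] [Algebra k L] [Algebra L L'] [Algebra k L']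
    [IsScalarTower k L L'] [IsSepClosed L'] {M : IntermediateField L L'}
    (hM : ∀ f, Form2 a b q r f → Five M (f.rootSet L')) :
    Fib2 (RingHom.id M) ((q.map (algebraMap k L)).map (algebraMap L M))
      ((r.map (algebraMap k L)).map (algebraMap L M)) 1 n
      ((a.map (algebraMap k L)).map (algebraMap L M))
      ((b.map (algebraMap k L)).map (algebraMap L M)) := by
  set φ : k →+* M := (algebraMap L M).comp (algebraMap k L) with hφ
  have em : ∀ p : k[X], (p.map (algebraMap k L)).map (algebraMap L M) = p.map φ := fun p => by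
    rw [Polynomial.map_map]
  have key : ∀ f, Form2 a b q r f → PwO (f.map φ) ∧ (f.map φ).natDegree = n := by
    intro f h
    obtain ⟨f1, f2, f3⟩ := hf f h
    have hd : (f.map φ).natDegree = n := by rw [natDegree_map, f1.2]
    refine ⟨pwO_of ?_ f2.map (by rw [hd]; exact h2), hd⟩
    rw [← em]
    exact five_irr f2 (by rw [f1.2]; exact h5) L L' (hM f h)
  rw [em, em, em, em]
  refine ⟨hco.map (mapRingHom φ), ?_, ?_, ?_, ?_, ?_⟩
  · rw [natDegree_map, hq]
    omega
  · rw [natDegree_map, hq]
  · rw [natDegree_map]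
    exact hr
  · intro ξ hξ
    rw [map_disc2, ← Polynomial.map_mul] at hξ
    obtain ⟨x, hx⟩ := hs.mem_range_of_isRoot (mul_ne_zero hB.hb0 hB.hd0) hξ
    have hx' : (b * (a ^ 2 - 4 * b)).IsRoot x := by
      rw [← hx, IsRoot.def, eval_map, eval₂_at_apply] at hξ
      exact (map_eq_zero_iff φ φ.injective).1 hξ
    have e : (q - C x * r).map φ = q.map φ - C (RingHom.id M ξ) * r.map φ := by
      rw [Polynomial.map_sub, Polynomial.map_mul, map_C, hx]
      rfl
    rw [← e]
    exact key _ (Or.inl ⟨x, hx', rfl⟩)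
  · rw [map_disc2, natDegree_map, natDegree_map]
    by_cases h1 : r = 1
    · left
      rw [h1, Polynomial.map_one]
    by_cases h : b.natDegree = 4 ∧ (a ^ 2 - 4 * b).natDegree = 4
    · exact Or.inr (Or.inl h)
    · exact Or.inr (Or.inr (key _ (Or.inr ⟨h, h1, rfl⟩)))

end forms

section main

variable {k L L' K F : Type} [Field k] [Field L] [Field L'] [Field K] [Field F]
  [Algebra k L] [Algebra L L'] [Algebra k L'] [IsScalarTower k L L']
  [Algebra L[X] K] [Algebra L'[X] F] [IsFractionRing L'[X] F] [Algebra K F]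

set_option maxHeartbeats 4000000 in
theorem mainA (hT : IsTower L L' K F) {a b q r : k[X]} {n : ℕ} (hB : RatBase2 a b)
    (hs : (b * (a ^ 2 - 4 * b)).Splits) (h5 : 5 ≤ n) (h2 : ¬ 2 ∣ n) (hco : IsCoprime q r)
    (hq : q.natDegree = n) (hr : r.natDegree ≤ n) (hf : ∀ f, Form2 a b q r f → FF n f)
    (M₀ : IntermediateField k L') [Normal k M₀]
    (hM₀ : ∀ x : L, IsSeparable k x → algebraMap L L' x ∈ M₀)
    (hns : ∀ f, Form2 a b q r f → ¬ (f.map (algebraMap k M₀)).Splits) :
    TateQ (F := F) 2 L' (surf2 K (q.map (algebraMap k L)) (r.map (algebraMap k L))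
      (a.map (algebraMap k L)) (b.map (algebraMap k L))) := by
  haveI := hT.sep
  haveI := hT.fracK
  haveI : IsSepClosed L' := IsSepClosure.sep_closed L
  haveI : IsSepClosure K (Sep F) := sepKΩ hT.map
  haveI : Algebra.IsSeparable K (Sep F) := IsSepClosure.separable
  haveI : IsGalois K (Sep F) := inferInstance
  have hpres : Preserves K F (Sep F) := preserves hT.map
  have hBL := hB.map (algebraMap k L)
  have h0 : b * (a ^ 2 - 4 * b) ≠ 0 := mul_ne_zero hB.hb0 hB.hd0
  have edL : (b.map (algebraMap k L)) * ((a.map (algebraMap k L)) ^ 2 -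
      4 * b.map (algebraMap k L)) = (b * (a ^ 2 - 4 * b)).map (algebraMap k L) := by
    rw [map_disc2, ← Polynomial.map_mul]
  have hsepL : ∀ π : L[X], Irreducible π → π ∣ (b.map (algebraMap k L)) *
      ((a.map (algebraMap k L)) ^ 2 - 4 * b.map (algebraMap k L)) → π.Separable := by
    rw [edL]
    refine sep_map _ h0 fun π h1 h2 => ?_
    have h3 := (hs.of_dvd h0 h2).natDegree_eq_one_of_irreducible h1
    obtain ⟨x, hx, y, e⟩ := natDegree_eq_one.1 h3
    rw [← e]
    have h4 : (C x * X + C y : k[X]) = C x * (X - C (-(y / x))) := by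
      have h5 : (C x * C (y / x) : k[X]) = C y := by
        rw [← C_mul, mul_div_cancel₀ _ hx]
      rw [C_neg, ← h5]
      ring
    rw [h4]
    exact (separable_X_sub_C (x := -(y / x))).unit_mul (isUnit_C.2 (isUnit_iff_ne_zero.2 hx))
  -- the class of fields
  obtain ⟨S, hS⟩ : ∃ S : Set (Set L'), S = {Z | ∃ f, Form2 a b q r f ∧ Z = f.rootSet L'} := ⟨_, rfl⟩
  have hbot : FiniteDimensional L (⊥ : IntermediateField L L') ∧
      ∀ Z ∈ S, Five (⊥ : IntermediateField L L') Z := by
    refine ⟨inferInstance, ?_⟩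
    rw [hS]
    rintro Z ⟨f, hff, rfl⟩
    obtain ⟨f1, f2, f3⟩ := hf f hff
    exact five_bot f2 (by rw [f1.2]; exact h5) f3 L L' M₀ hM₀ (hns f hff)
  obtain ⟨M, ⟨hMf, hM5⟩, hMs, hMB⟩ := exists_stable2 (L' := L') hBL (stable_five S) hbot hsepL
  haveI := hMf
  have hF := fib_five (L' := L') (M := M) hB hs h5 h2 hco hq hr hf (fun f hff => hM5 _ (by
    rw [hS]
    exact ⟨f, hff, rfl⟩))
  set aL := a.map (algebraMap k L) with haL
  set bL := b.map (algebraMap k L) with hbL
  set qL := q.map (algebraMap k L) with hqL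
  set rL := r.map (algebraMap k L) with hrL
  -- the fields
  obtain ⟨i₁, hi₁⟩ := exists_lift (K := K) (K₁ := FractionRing M[X]) (algebraMap L M)
  obtain ⟨i₂, hi₂⟩ := exists_lift (K := FractionRing M[X]) (K₁ := F) (algebraMap M L')
  letI : Algebra K (FractionRing M[X]) := i₁.toAlgebra
  letI : Algebra (FractionRing M[X]) F := i₂.toAlgebra
  have hKK : ∀ p : L[X], algebraMap K (FractionRing M[X]) (algebraMap L[X] K p) =
      algebraMap M[X] (FractionRing M[X]) (p.map (algebraMap L M)) := hi₁
  haveI : IsScalarTower K (FractionRing M[X]) F := by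
    refine IsScalarTower.of_algebraMap_eq fun x => ?_
    obtain ⟨g, h, hh, rfl⟩ := IsFractionRing.div_surjective (A := L[X]) x
    have key : ∀ g : L[X], algebraMap K F (algebraMap L[X] K g) =
        i₂ (i₁ (algebraMap L[X] K g)) := by
      intro g
      rw [hT.map, hi₁, hi₂, Polynomial.map_map]
      rfl
    show algebraMap K F _ = i₂ (i₁ _)
    rw [map_div₀, map_div₀, map_div₀, key, key]
  haveI : IsSepClosure M L' := ⟨IsSepClosure.sep_closed L, by
    haveI : Algebra.IsSeparable L L' := IsSepClosure.separable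
    exact Algebra.isSeparable_tower_top_of_isSeparable L M L'⟩
  have hT1 : IsTower M L' (FractionRing M[X]) F := ⟨inferInstance, inferInstance, hi₂⟩
  haveI : FiniteDimensional K (FractionRing M[X]) := finite_mid hKK
  have hB3 := hMB (FractionRing M[X])
  -- the coefficients
  have eA : algebraMap K (FractionRing M[X]) (algebraMap L[X] K (hb qL rL 2 aL)) =
      algebraMap M[X] (FractionRing M[X]) (hb (qL.map (algebraMap L M)) (rL.map (algebraMap L M))
        (2 * 1) ((aL.map (algebraMap L M)).map (RingHom.id M))) := by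
    rw [hKK, hb_map, Polynomial.map_id]
  have eB : algebraMap K (FractionRing M[X]) (algebraMap L[X] K (hb qL rL 4 bL)) =
      algebraMap M[X] (FractionRing M[X]) (hb (qL.map (algebraMap L M)) (rL.map (algebraMap L M))
        (4 * 1) ((bL.map (algebraMap L M)).map (RingHom.id M))) := by
    rw [hKK, hb_map, Polynomial.map_id]
  have h1 := tate_pull2 (K₀ := FractionRing M[X]) (F := F) hT1 hB3 (RingHom.id M) hF h2
  refine tate_desc (K₁ := FractionRing M[X]) hpres ?_
  have e : (surf2 K qL rL aL bL).map (algebraMap K (FractionRing M[X])) =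
      crvT (algebraMap M[X] (FractionRing M[X]) (hb (qL.map (algebraMap L M))
        (rL.map (algebraMap L M)) (2 * 1) ((aL.map (algebraMap L M)).map (RingHom.id M))))
        (algebraMap M[X] (FractionRing M[X]) (hb (qL.map (algebraMap L M))
          (rL.map (algebraMap L M)) (4 * 1)
          ((bL.map (algebraMap L M)).map (RingHom.id M)))) := by
    rw [← eA, ← eB]
    ext
    · exact map_zero _
    · rfl
    · exact map_zero _
    · rfl
    · exact map_zero _
  rw [e]
  exact h1

/-- The same for solvable constants. -/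
theorem mainB (hT : IsTower L L' K F) {a b q r : k[X]} {n : ℕ} (hB : RatBase2 a b)
    (hs : (b * (a ^ 2 - 4 * b)).Splits) (h5 : 5 ≤ n) (h2 : ¬ 2 ∣ n) (hco : IsCoprime q r)
    (hq : q.natDegree = n) (hr : r.natDegree ≤ n) (hf : ∀ f, Form2 a b q r f → FF n f)
    (hM : ∀ x : L, IsSeparable k x → Group.IsSolvable (minpoly k x).Gal) :
    TateQ (F := F) 2 L' (surf2 K (q.map (algebraMap k L)) (r.map (algebraMap k L))
      (a.map (algebraMap k L)) (b.map (algebraMap k L))) := by
  haveI := hT.sep
  haveI : IsSepClosed L' := IsSepClosure.sep_closed L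
  haveI := solvM_normal (k := k) L'
  exact mainA hT hB hs h5 h2 hco hq hr hf (solvM k L') (fun x hx => mem_solvM hx (hM x hx))
    (fun f h => solvM_not_splits L' (hf f h).2.1 (by rw [(hf f h).1.2]; exact h5) (hf f h).2.2)

end main

end Pool.Agent.N181.TA
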